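import Pool.Agent.Y24.F2
import Pool.Agent.Y854.GM.Cum
import Pool.Agent.Y854.GM.Win
import Pool.Agent.Y854.GM.Rate

/-!
# The local density hypothesis for almost all short intervals

Few unit cells `[m, m+1)` contain a `t` such that for some `1 ≤ H ≤ t` and `1/2 ≤ σ ≤ 1` the interval `(t, t + H]`
contains more than `m ^ ε H min(H ^ 2, t ^ (4/3)) ^ (1/2 - σ)` zeros of zeta with real part at least `σ`.
-/

set_option autoImplicit false

open Finset Filter Topology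

namespace Pool.Agent.Q34.DN

/-- the number of the zeros of zeta with real part at least `σ` and ordinate in `(x, y]`, with multiplicity -/
noncomputable def N (σ x y : ℝ) : ℕ :=
  ∑ᶠ s ∈ {s : ℂ | riemannZeta s = 0 ∧ σ ≤ s.re ∧ x < s.im ∧ s.im ≤ y}, analyticOrderNatAt riemannZeta s

lemma fin {σ x y : ℝ} (hx : 0 ≤ x) :
    {s : ℂ | riemannZeta s = 0 ∧ σ ≤ s.re ∧ x < s.im ∧ s.im ≤ y}.Finite := by
  refine (Pool.Agent.Y24.ZZ_fin σ y).subset ?_
  rintro s ⟨h1, h2, h3, h4⟩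
  exact ⟨h1, h2, lt_of_le_of_lt hx h3, h4⟩

lemma N_mono {σ σ' x x' y y' : ℝ} (hx : 0 ≤ x') (h1 : σ' ≤ σ) (h2 : x' ≤ x) (h3 : y ≤ y') :
    N σ x y ≤ N σ' x' y' := by
  unfold N
  rw [finsum_mem_eq_finite_toFinset_sum _ (fin (hx.trans h2)), finsum_mem_eq_finite_toFinset_sum _ (fin hx)]
  refine Finset.sum_le_sum_of_subset_of_nonneg ?_ fun _ _ _ => Nat.zero_le _
  intro s hs
  rw [Set.Finite.mem_toFinset] at hs ⊢
  obtain ⟨a, b, c, d⟩ := hs
  exact ⟨a, h1.trans b, lt_of_le_of_lt h2 c, d.trans h3⟩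

/-- the sum over the starting points of the windows -/
lemma sum_windows {σ L : ℝ} (hL : 0 ≤ L) (K : ℕ) :
    ∑ m ∈ Ioc K (2 * K), (N σ m (m + L) : ℝ) ≤ (L + 1) * (N σ 0 (2 * K + L) : ℝ) := by
  classical
  set S := (fin (σ := σ) (x := 0) (y := 2 * K + L) le_rfl).toFinset with hS
  have h1 : ∀ m ∈ Ioc K (2 * K), (N σ m (m + L) : ℝ) =
      ∑ s ∈ S, if ((m : ℝ) < s.im ∧ s.im ≤ m + L) then (analyticOrderNatAt riemannZeta s : ℝ) else 0 := by
    intro m hm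
    rw [mem_Ioc] at hm
    have hm2 : (m : ℝ) ≤ 2 * K := by exact_mod_cast hm.2
    unfold N
    rw [finsum_mem_eq_finite_toFinset_sum _ (fin (Nat.cast_nonneg m)), ← Finset.sum_filter]
    push_cast
    refine Finset.sum_congr ?_ fun _ _ => rfl
    ext s
    rw [Set.Finite.mem_toFinset, Finset.mem_filter, hS, Set.Finite.mem_toFinset]
    constructor
    · rintro ⟨a, b, c, d⟩
      exact ⟨⟨a, b, lt_of_le_of_lt (Nat.cast_nonneg m) c, by linarith⟩, c, d⟩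
    · rintro ⟨⟨a, b, _, _⟩, c, d⟩
      exact ⟨a, b, c, d⟩
  rw [Finset.sum_congr rfl h1, Finset.sum_comm]
  have h2 : (N σ 0 (2 * K + L) : ℝ) = ∑ s ∈ S, (analyticOrderNatAt riemannZeta s : ℝ) := by
    unfold N
    rw [finsum_mem_eq_finite_toFinset_sum _ (fin le_rfl)]
    push_cast
    rfl
  rw [h2, Finset.mul_sum]
  refine Finset.sum_le_sum fun s hs => ?_
  rw [hS, Set.Finite.mem_toFinset] at hs
  have hs0 : 0 < s.im := hs.2.2.1
  rw [← Finset.sum_filter, Finset.sum_const, nsmul_eq_mul]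
  refine mul_le_mul_of_nonneg_right ?_ (Nat.cast_nonneg _)
  have h3 : (Ioc K (2 * K)).filter (fun m : ℕ => (m : ℝ) < s.im ∧ s.im ≤ m + L) ⊆
      Finset.Ico ⌈s.im - L⌉₊ ⌈s.im⌉₊ := by
    intro m hm
    rw [mem_filter] at hm
    rw [mem_Ico]
    exact ⟨Nat.ceil_le.2 (by linarith [hm.2.2]), Nat.lt_ceil.2 hm.2.1⟩
  have h4 : (((Ioc K (2 * K)).filter (fun m : ℕ => (m : ℝ) < s.im ∧ s.im ≤ m + L)).card : ℝ) ≤
      ((⌈s.im⌉₊ - ⌈s.im - L⌉₊ : ℕ) : ℝ) := by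
    have := Finset.card_le_card h3
    rw [Nat.card_Ico] at this
    exact_mod_cast this
  refine h4.trans ?_
  have h5 := Nat.ceil_lt_add_one hs0.le
  have h6 := Nat.le_ceil (s.im - L)
  rcases le_total ⌈s.im - L⌉₊ ⌈s.im⌉₊ with h7 | h7
  · rw [Nat.cast_sub h7]
    linarith
  · rw [Nat.sub_eq_zero_of_le h7]
    push_cast
    linarith

/-- the local density bound at all points of `[m, m+1)` -/
def Good (ε : ℝ) (m : ℕ) : Prop :=
  ∀ t : ℝ, (m : ℝ) ≤ t → t < m + 1 → ∀ H : ℝ, 1 ≤ H → H ≤ t → ∀ σ : ℝ, 1 / 2 ≤ σ → σ ≤ 1 →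
    (N σ t (t + H) : ℝ) ≤ (m : ℝ) ^ ε * (H * (min (H ^ 2) (t ^ (4 / 3 : ℝ))) ^ (1 / 2 - σ))

open Classical in
/-- the pieces of the exceptional set -/
noncomputable def piece (ε : ℝ) (K n j k : ℕ) : Finset ℕ :=
  (Ioc n (2 * n)).filter (fun m : ℕ =>
    (n : ℝ) ^ ε * ((3 * n : ℝ) ^ (-(2 / K) : ℝ) * (3 * n : ℝ) ^ ((j : ℝ) / K)) *
      (min (((3 * n : ℝ) ^ ((j : ℝ) / K)) ^ 2) ((3 * n : ℝ) ^ (4 / 3 : ℝ))) ^ (-((k : ℝ) / (2 * K))) ≤
      (N (1 / 2 + k / (2 * K)) m (m + (1 + (3 * n : ℝ) ^ ((j : ℝ) / K))) : ℝ))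

open Classical in
/-- every bad integer is in one of the pieces -/
lemma cover {ε : ℝ} (hε : 0 < ε) {K : ℕ} (hK : 1 ≤ K) {n : ℕ} (hn : 1 ≤ n) :
    (Ioc n (2 * n)).filter (fun m => ¬ Good ε m) ⊆
      (range (K + 1) ×ˢ range (K + 1)).biUnion (fun p => piece ε K n p.1 p.2) := by
  intro m hm
  rw [mem_filter, mem_Ioc] at hm
  obtain ⟨⟨hm1, hm2⟩, hbad⟩ := hm
  unfold Good at hbad
  push Not at hbad
  obtain ⟨t, ht1, ht2, H, hH1, hH2, σ, hσ1, hσ2, hlt⟩ := hbad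
  have hn0 : (1 : ℝ) ≤ n := by exact_mod_cast hn
  have hmn : (n : ℝ) ≤ m := by exact_mod_cast hm1.le
  have hm2' : (m : ℝ) ≤ 2 * n := by exact_mod_cast hm2
  have hK0 : (1 : ℝ) ≤ K := by exact_mod_cast hK
  have hKp : (0 : ℝ) < K := by linarith
  have hy1 : (1 : ℝ) < 3 * n := by linarith
  have hy0 : (0 : ℝ) < 3 * n := by linarith
  have ht3 : t ≤ 3 * n := by linarith
  have hH3 : H ≤ 3 * n := by linarith
  have hLy : 0 < Real.log (3 * n) := Real.log_pos hy1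
  have hlH : 0 ≤ Real.log H := Real.log_nonneg hH1
  set j : ℕ := ⌈K * (Real.log H / Real.log (3 * n))⌉₊ with hj
  set k : ℕ := ⌊2 * K * (σ - 1 / 2)⌋₊ with hk
  have hq0 : 0 ≤ Real.log H / Real.log (3 * n) := div_nonneg hlH hLy.le
  have hq1 : Real.log H / Real.log (3 * n) ≤ 1 := by
    rw [div_le_one hLy]
    exact Real.log_le_log (by linarith) hH3
  have hjK : j ≤ K := by
    rw [hj]
    apply Nat.ceil_le.2
    nlinarith
  have hkK : k ≤ K := by
    rw [hk]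
    apply Nat.floor_le_of_le
    nlinarith
  have hj1 : K * (Real.log H / Real.log (3 * n)) ≤ j := Nat.le_ceil _
  have hj2 : (j : ℝ) < K * (Real.log H / Real.log (3 * n)) + 1 :=
    Nat.ceil_lt_add_one (mul_nonneg hKp.le hq0)
  have hk1 : (k : ℝ) ≤ 2 * K * (σ - 1 / 2) := Nat.floor_le (by nlinarith)
  have hk2 : 2 * K * (σ - 1 / 2) < k + 1 := Nat.lt_floor_add_one _
  have hHe : H = (3 * n : ℝ) ^ (Real.log H / Real.log (3 * n)) := by
    rw [Real.rpow_def_of_pos hy0]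
    rw [show Real.log (3 * n) * (Real.log H / Real.log (3 * n)) = Real.log H by field_simp]
    rw [Real.exp_log (by linarith)]
  set h : ℝ := (3 * n : ℝ) ^ ((j : ℝ) / K) with hh
  have hHh : H ≤ h := by
    rw [hHe, hh]
    apply Real.rpow_le_rpow_of_exponent_le hy1.le
    rw [le_div_iff₀ hKp]
    linarith
  have hhH : (3 * n : ℝ) ^ (-(1 / K) : ℝ) * h ≤ H := by
    rw [hh, ← Real.rpow_add hy0]
    conv_rhs => rw [hHe]
    apply Real.rpow_le_rpow_of_exponent_le hy1.le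
    have : (j : ℝ) / K ≤ Real.log H / Real.log (3 * n) + 1 / K := by
      rw [div_le_iff₀ hKp, add_mul, one_div, inv_mul_cancel₀ hKp.ne']
      linarith
    linarith
  have hh1 : 1 ≤ h := hH1.trans hHh
  set M : ℝ := min (h ^ 2) ((3 * n : ℝ) ^ (4 / 3 : ℝ)) with hM
  have hM1 : 1 ≤ M := by
    rw [hM]
    apply le_min
    · nlinarith
    · exact Real.one_le_rpow hy1.le (by norm_num)
  have hMn : M ≤ (3 * n : ℝ) ^ (4 / 3 : ℝ) := min_le_right _ _
  have ht0 : 1 ≤ t := by linarith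
  set M' : ℝ := min (H ^ 2) (t ^ (4 / 3 : ℝ)) with hM'
  have hM'1 : 1 ≤ M' := by
    rw [hM']
    apply le_min
    · nlinarith
    · exact Real.one_le_rpow ht0 (by norm_num)
  have hM'M : M' ≤ M := by
    rw [hM, hM']
    apply min_le_min
    · exact pow_le_pow_left₀ (by linarith) hHh 2
    · exact Real.rpow_le_rpow (by linarith) ht3 (by norm_num)
  rw [mem_biUnion]
  refine ⟨(j, k), ?_, ?_⟩
  · rw [mem_product, mem_range, mem_range]
    exact ⟨by omega, by omega⟩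
  · unfold piece
    rw [mem_filter, mem_Ioc]
    refine ⟨⟨hm1, hm2⟩, ?_⟩
    show (n : ℝ) ^ ε * ((3 * n : ℝ) ^ (-(2 / K) : ℝ) * h) * M ^ (-((k : ℝ) / (2 * K))) ≤
      (N (1 / 2 + k / (2 * K)) m (m + (1 + h)) : ℝ)
    have hsk : 1 / 2 + (k : ℝ) / (2 * K) ≤ σ := by
      have : (k : ℝ) / (2 * K) ≤ σ - 1 / 2 := by
        rw [div_le_iff₀ (by positivity)]
        linarith
      linarith
    have hsk2 : σ - 1 / 2 ≤ (k : ℝ) / (2 * K) + 1 / (2 * K) := by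
      rw [← add_div, le_div_iff₀ (by positivity)]
      linarith
    have hcnt : (N σ t (t + H) : ℝ) ≤ (N (1 / 2 + k / (2 * K)) m (m + (1 + h)) : ℝ) := by
      apply Nat.cast_le.2
      exact N_mono (Nat.cast_nonneg m) hsk ht1 (by linarith)
    refine le_trans ?_ (hlt.le.trans hcnt)
    have e1 : (n : ℝ) ^ ε ≤ (m : ℝ) ^ ε := Real.rpow_le_rpow (by linarith) hmn hε.le
    have e2 : M ^ (-((k : ℝ) / (2 * K))) * (3 * n : ℝ) ^ (-(1 / K) : ℝ) ≤ M' ^ (1 / 2 - σ) := by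
      calc M ^ (-((k : ℝ) / (2 * K))) * (3 * n : ℝ) ^ (-(1 / K) : ℝ)
          ≤ M ^ (-((k : ℝ) / (2 * K))) * M ^ (-(1 / (2 * K)) : ℝ) := by
            apply mul_le_mul_of_nonneg_left _ (by positivity)
            have h3 : M ^ (1 / (2 * K) : ℝ) ≤ (3 * n : ℝ) ^ (1 / K : ℝ) := by
              calc M ^ (1 / (2 * K) : ℝ) ≤ ((3 * n : ℝ) ^ (4 / 3 : ℝ)) ^ (1 / (2 * K) : ℝ) :=
                    Real.rpow_le_rpow (by linarith) hMn (by positivity)
                _ = (3 * n : ℝ) ^ ((4 / 3) * (1 / (2 * K)) : ℝ) := by rw [← Real.rpow_mul hy0.le]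
                _ ≤ (3 * n : ℝ) ^ (1 / K : ℝ) := by
                    apply Real.rpow_le_rpow_of_exponent_le hy1.le
                    rw [show (4 / 3 : ℝ) * (1 / (2 * K)) = (2 / 3) * (1 / K) by field_simp; norm_num]
                    have : 0 < 1 / (K : ℝ) := by positivity
                    linarith
            rw [Real.rpow_neg hy0.le, Real.rpow_neg (by linarith)]
            exact inv_anti₀ (by positivity) h3
        _ = M ^ (-((k : ℝ) / (2 * K) + 1 / (2 * K))) := by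
            rw [← Real.rpow_add (by linarith)]
            congr 1
            ring
        _ ≤ M ^ (1 / 2 - σ) := by
            apply Real.rpow_le_rpow_of_exponent_le hM1
            linarith
        _ ≤ M' ^ (1 / 2 - σ) := by
            apply Real.rpow_le_rpow_of_nonpos (by linarith) hM'M (by linarith)
    calc (n : ℝ) ^ ε * ((3 * n : ℝ) ^ (-(2 / K) : ℝ) * h) * M ^ (-((k : ℝ) / (2 * K)))
        = (n : ℝ) ^ ε * (((3 * n : ℝ) ^ (-(1 / K) : ℝ) * h) *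
          (M ^ (-((k : ℝ) / (2 * K))) * (3 * n : ℝ) ^ (-(1 / K) : ℝ))) := by
          have : (3 * n : ℝ) ^ (-(2 / K) : ℝ) = (3 * n : ℝ) ^ (-(1 / K) : ℝ) * (3 * n : ℝ) ^ (-(1 / K) : ℝ) := by
            rw [← Real.rpow_add hy0]
            congr 1
            ring
          rw [this]
          ring
      _ ≤ (m : ℝ) ^ ε * (H * M' ^ (1 / 2 - σ)) := by
          apply mul_le_mul e1 _ (by positivity) (by positivity)
          exact mul_le_mul hhH e2 (by positivity) (by linarith)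

/-- counting one piece -/
lemma piece_card {ε : ℝ} (hε : 0 < ε) (hε1 : ε ≤ 1) {K : ℕ} (hK : 16 / ε ≤ K) {C : ℝ} (hC : 0 < C)
    (hD : ∀ σ T : ℝ, 1 / 2 ≤ σ → σ ≤ 1 → 2 ≤ T →
      (N σ 0 T : ℝ) ≤ C * T ^ (1 - (4 / 3 - ε / 4) * (σ - 1 / 2)) * Real.log T)
    {n j k : ℕ} (hn : 1 ≤ n) (hj : j ≤ K) (hk : k ≤ K) :
    ((piece ε K n j k).card : ℝ) ≤ 3 * C * (8 / ε) * 81 * (n : ℝ) ^ (1 - 5 * ε / 8) := by
  classical
  have hn0 : (1 : ℝ) ≤ n := by exact_mod_cast hn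
  have hKp : (0 : ℝ) < K := lt_of_lt_of_le (by positivity) hK
  have hy1 : (1 : ℝ) ≤ 3 * n := by linarith
  have hy0 : (0 : ℝ) < 3 * n := by linarith
  have hz1 : (1 : ℝ) ≤ 9 * n := by linarith
  have hz0 : (0 : ℝ) < 9 * n := by linarith
  have hjK : (j : ℝ) / K ≤ 1 := by
    rw [div_le_one hKp]
    exact_mod_cast hj
  have hj0 : (0 : ℝ) ≤ (j : ℝ) / K := by positivity
  set h : ℝ := (3 * n : ℝ) ^ ((j : ℝ) / K) with hh
  have hh1 : 1 ≤ h := Real.one_le_rpow hy1 hj0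
  have hh3 : h ≤ 3 * n := by
    calc h ≤ (3 * n : ℝ) ^ (1 : ℝ) := Real.rpow_le_rpow_of_exponent_le hy1 hjK
      _ = 3 * n := Real.rpow_one _
  set s : ℝ := (k : ℝ) / (2 * K) with hs
  have hs0 : 0 ≤ s := by positivity
  have hs1 : s ≤ 1 / 2 := by
    rw [hs, div_le_iff₀ (by positivity)]
    have : (k : ℝ) ≤ K := by exact_mod_cast hk
    linarith
  set M : ℝ := min (h ^ 2) ((3 * n : ℝ) ^ (4 / 3 : ℝ)) with hM
  have hM1 : 1 ≤ M := by
    rw [hM]
    apply le_min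
    · nlinarith
    · exact Real.one_le_rpow hy1 (by norm_num)
  set lam : ℝ := (n : ℝ) ^ ε * ((3 * n : ℝ) ^ (-(2 / K) : ℝ) * h) * M ^ (-s) with hlam
  have hlam0 : 0 < lam := by rw [hlam]; positivity
  have h1 : ((piece ε K n j k).card : ℝ) * lam ≤ ∑ m ∈ Ioc n (2 * n), (N (1 / 2 + s) m (m + (1 + h)) : ℝ) := by
    calc ((piece ε K n j k).card : ℝ) * lam = ∑ _m ∈ piece ε K n j k, lam := by
          rw [Finset.sum_const, nsmul_eq_mul]
      _ ≤ ∑ m ∈ piece ε K n j k, (N (1 / 2 + s) m (m + (1 + h)) : ℝ) := by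
          refine Finset.sum_le_sum fun m hm => ?_
          unfold piece at hm
          rw [mem_filter] at hm
          exact hm.2
      _ ≤ ∑ m ∈ Ioc n (2 * n), (N (1 / 2 + s) m (m + (1 + h)) : ℝ) := by
          refine Finset.sum_le_sum_of_subset_of_nonneg ?_ fun _ _ _ => Nat.cast_nonneg _
          unfold piece
          exact Finset.filter_subset _ _
  have h2 := sum_windows (σ := 1 / 2 + s) (L := 1 + h) (by linarith) n
  have h3 : (N (1 / 2 + s) 0 (2 * n + (1 + h)) : ℝ) ≤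
      C * (9 * n : ℝ) ^ (1 - (4 / 3 - ε / 4) * s) * Real.log (9 * n) := by
    have h4 : (N (1 / 2 + s) 0 (2 * n + (1 + h)) : ℝ) ≤ (N (1 / 2 + s) 0 (9 * n) : ℝ) :=
      Nat.cast_le.2 (N_mono le_rfl le_rfl le_rfl (by linarith))
    have h5 := hD (1 / 2 + s) (9 * n) (by linarith) (by linarith) (by linarith)
    rw [show 1 / 2 + s - 1 / 2 = s by ring] at h5
    exact h4.trans h5
  have hlog : Real.log (9 * n) ≤ (8 / ε) * (9 * n : ℝ) ^ (ε / 8) := by
    have := Real.log_le_rpow_div hz0.le (show 0 < ε / 8 by positivity)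
    refine this.trans (le_of_eq ?_)
    field_simp
  have hlog0 : 0 ≤ Real.log (9 * n) := Real.log_nonneg hz1
  -- the main comparison
  have h6 : 3 * (C * (9 * n : ℝ) ^ (1 - (4 / 3 - ε / 4) * s) * Real.log (9 * n)) ≤
      (3 * C * (8 / ε) * 81 * (n : ℝ) ^ (1 - 5 * ε / 8)) * ((n : ℝ) ^ ε * (3 * n : ℝ) ^ (-(2 / K) : ℝ) * M ^ (-s)) := by
    have a1 : (9 * n : ℝ) ^ (1 + 3 * ε / 8) ≤ 81 * (n : ℝ) ^ (1 + 3 * ε / 8) := by
      rw [Real.mul_rpow (by norm_num) (by linarith)]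
      apply mul_le_mul_of_nonneg_right _ (by positivity)
      calc (9 : ℝ) ^ (1 + 3 * ε / 8) ≤ (9 : ℝ) ^ (2 : ℝ) :=
            Real.rpow_le_rpow_of_exponent_le (by norm_num) (by linarith)
        _ = 81 := by norm_num
    have a2 : (n : ℝ) ^ (1 - 5 * ε / 8) * (n : ℝ) ^ ε = (n : ℝ) ^ (1 + 3 * ε / 8) := by
      rw [← Real.rpow_add (by linarith)]
      congr 1
      ring
    have a3 : (9 * n : ℝ) ^ (-(ε / 8)) ≤ (3 * n : ℝ) ^ (-(2 / K) : ℝ) := by
      calc (9 * n : ℝ) ^ (-(ε / 8)) ≤ (9 * n : ℝ) ^ (-(2 / K) : ℝ) := by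
            apply Real.rpow_le_rpow_of_exponent_le hz1
            have : (2 : ℝ) / K ≤ ε / 8 := by
              rw [div_le_iff₀ hKp]
              rw [div_le_iff₀ hε] at hK
              nlinarith
            linarith
        _ ≤ (3 * n : ℝ) ^ (-(2 / K) : ℝ) := by
            apply Real.rpow_le_rpow_of_nonpos hy0 (by linarith)
            have : (0 : ℝ) < 2 / K := by positivity
            linarith
    have a4 : (9 * n : ℝ) ^ (-(4 / 3 * s)) ≤ M ^ (-s) := by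
      calc (9 * n : ℝ) ^ (-(4 / 3 * s)) = ((9 * n : ℝ) ^ (4 / 3 : ℝ)) ^ (-s) := by
            rw [← Real.rpow_mul hz0.le]
            congr 1
            ring
        _ ≤ M ^ (-s) := by
            apply Real.rpow_le_rpow_of_nonpos (by linarith) _ (by linarith)
            refine (min_le_right _ _).trans ?_
            exact Real.rpow_le_rpow hy0.le (by linarith) (by norm_num)
    have a5 : (9 * n : ℝ) ^ (1 - (4 / 3 - ε / 4) * s) * (9 * n : ℝ) ^ (ε / 8) ≤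
        (9 * n : ℝ) ^ (1 + 3 * ε / 8) * ((9 * n : ℝ) ^ (-(ε / 8)) * (9 * n : ℝ) ^ (-(4 / 3 * s))) := by
      rw [← Real.rpow_add hz0, ← Real.rpow_add hz0, ← Real.rpow_add hz0]
      apply Real.rpow_le_rpow_of_exponent_le hz1
      nlinarith
    calc 3 * (C * (9 * n : ℝ) ^ (1 - (4 / 3 - ε / 4) * s) * Real.log (9 * n))
        ≤ 3 * (C * (9 * n : ℝ) ^ (1 - (4 / 3 - ε / 4) * s) * ((8 / ε) * (9 * n : ℝ) ^ (ε / 8))) := by
          apply mul_le_mul_of_nonneg_left _ (by norm_num)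
          exact mul_le_mul_of_nonneg_left hlog (by positivity)
      _ = (3 * C * (8 / ε)) * ((9 * n : ℝ) ^ (1 - (4 / 3 - ε / 4) * s) * (9 * n : ℝ) ^ (ε / 8)) := by ring
      _ ≤ (3 * C * (8 / ε)) * ((9 * n : ℝ) ^ (1 + 3 * ε / 8) *
          ((9 * n : ℝ) ^ (-(ε / 8)) * (9 * n : ℝ) ^ (-(4 / 3 * s)))) :=
          mul_le_mul_of_nonneg_left a5 (by positivity)
      _ ≤ (3 * C * (8 / ε)) * ((81 * (n : ℝ) ^ (1 + 3 * ε / 8)) * ((3 * n : ℝ) ^ (-(2 / K) : ℝ) * M ^ (-s))) := by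
          apply mul_le_mul_of_nonneg_left _ (by positivity)
          exact mul_le_mul a1 (mul_le_mul a3 a4 (by positivity) (by positivity)) (by positivity) (by positivity)
      _ = _ := by rw [← a2]; ring
  have h7 : ((piece ε K n j k).card : ℝ) * lam ≤ (3 * C * (8 / ε) * 81 * (n : ℝ) ^ (1 - 5 * ε / 8)) * lam := by
    calc ((piece ε K n j k).card : ℝ) * lam
        ≤ (1 + h + 1) * (N (1 / 2 + s) 0 (2 * n + (1 + h)) : ℝ) := h1.trans h2
      _ ≤ (3 * h) * (C * (9 * n : ℝ) ^ (1 - (4 / 3 - ε / 4) * s) * Real.log (9 * n)) := by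
          apply mul_le_mul (by linarith) h3 (Nat.cast_nonneg _) (by linarith)
      _ = h * (3 * (C * (9 * n : ℝ) ^ (1 - (4 / 3 - ε / 4) * s) * Real.log (9 * n))) := by ring
      _ ≤ h * ((3 * C * (8 / ε) * 81 * (n : ℝ) ^ (1 - 5 * ε / 8)) *
          ((n : ℝ) ^ ε * (3 * n : ℝ) ^ (-(2 / K) : ℝ) * M ^ (-s))) :=
          mul_le_mul_of_nonneg_left h6 (by linarith)
      _ = _ := by rw [hlam]; ring
  exact le_of_mul_le_mul_right h7 hlam0

open Classical in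
/-- few bad integers in dyadic blocks -/
theorem block {ε : ℝ} (hε : 0 < ε) (hε1 : ε ≤ 1) : ∃ n₀ : ℕ, ∀ n : ℕ, n₀ ≤ n →
    (((Ioc n (2 * n)).filter (fun m => m ∈ {m : ℕ | ¬ Good ε m})).card : ℝ) ≤ (n : ℝ) ^ (1 - ε / 2) := by
  obtain ⟨C, hC, hD⟩ := Pool.Agent.Y24.density (c := 4 / 3 - ε / 4) (by linarith)
  have hD' : ∀ σ T : ℝ, 1 / 2 ≤ σ → σ ≤ 1 → 2 ≤ T →
      (N σ 0 T : ℝ) ≤ C * T ^ (1 - (4 / 3 - ε / 4) * (σ - 1 / 2)) * Real.log T := by
    intro σ T h1 h2 h3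
    refine le_trans (le_of_eq ?_) (hD σ T h1 h2 h3).2
    unfold N
    rw [finsum_mem_eq_finite_toFinset_sum _ (fin le_rfl), finsum_mem_eq_finite_toFinset_sum _
      (Pool.Agent.Y24.ZZ_fin σ T)]
    push_cast
    rfl
  set K : ℕ := ⌈16 / ε⌉₊ with hK
  have hK1 : 16 / ε ≤ K := Nat.le_ceil _
  have hKp : 1 ≤ K := by
    have : (0 : ℝ) < K := lt_of_lt_of_le (by positivity) hK1
    exact_mod_cast this
  set B : ℝ := 3 * C * (8 / ε) * 81 with hB
  have hB0 : 0 < B := by positivity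
  have htend : Tendsto (fun n : ℕ => (n : ℝ) ^ (ε / 8)) atTop atTop :=
    (tendsto_rpow_atTop (by positivity)).comp tendsto_natCast_atTop_atTop
  obtain ⟨n₁, hn₁⟩ := eventually_atTop.1 (htend.eventually_ge_atTop (((K + 1 : ℕ) : ℝ) ^ 2 * B))
  refine ⟨max n₁ 1, fun n hn => ?_⟩
  have hn1 : 1 ≤ n := (le_max_right _ _).trans hn
  have hn0 : (1 : ℝ) ≤ n := by exact_mod_cast hn1
  have h1 := hn₁ n ((le_max_left _ _).trans hn)
  have h2 : ((Ioc n (2 * n)).filter (fun m => m ∈ {m : ℕ | ¬ Good ε m})) ⊆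
      (range (K + 1) ×ˢ range (K + 1)).biUnion (fun p => piece ε K n p.1 p.2) := by
    intro m hm
    apply cover hε hKp hn1
    rw [mem_filter] at hm ⊢
    exact ⟨hm.1, hm.2⟩
  have h3 := (Finset.card_le_card h2).trans Finset.card_biUnion_le
  calc (((Ioc n (2 * n)).filter (fun m => m ∈ {m : ℕ | ¬ Good ε m})).card : ℝ)
      ≤ ((∑ p ∈ range (K + 1) ×ˢ range (K + 1), (piece ε K n p.1 p.2).card : ℕ) : ℝ) := by exact_mod_cast h3
    _ = ∑ p ∈ range (K + 1) ×ˢ range (K + 1), ((piece ε K n p.1 p.2).card : ℝ) := by push_cast; rfl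
    _ ≤ ∑ _p ∈ range (K + 1) ×ˢ range (K + 1), B * (n : ℝ) ^ (1 - 5 * ε / 8) := by
        refine Finset.sum_le_sum fun p hp => ?_
        rw [mem_product, mem_range, mem_range] at hp
        exact piece_card hε hε1 hK1 hC hD' hn1 (by omega) (by omega)
    _ = (((K + 1 : ℕ) : ℝ) ^ 2 * B) * (n : ℝ) ^ (1 - 5 * ε / 8) := by
        rw [Finset.sum_const, card_product, card_range, nsmul_eq_mul]
        push_cast
        ring
    _ ≤ (n : ℝ) ^ (ε / 8) * (n : ℝ) ^ (1 - 5 * ε / 8) := mul_le_mul_of_nonneg_right h1 (by positivity)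
    _ = (n : ℝ) ^ (1 - ε / 2) := by
        rw [← Real.rpow_add (by linarith)]
        congr 1
        ring

open Classical in
/-- a set whose dyadic counting function has a power saving, with the same exponent -/
lemma cum_exact (P : Set ℕ) {κ : ℝ} (hκ : 0 < κ) (hκ2 : κ ≤ 1 / 2) (K0 : ℕ)
    (h : ∀ K : ℕ, K0 ≤ K → (((Ioc K (2 * K)).filter (fun t => t ∈ P)).card : ℝ) ≤ (K : ℝ) ^ (1 - κ)) :
    ∃ C : ℝ, ∀ X : ℕ, (((Ioc 0 X).filter (fun t => t ∈ P)).card : ℝ) ≤ C * (X : ℝ) ^ (1 - κ) := by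
  refine ⟨2 * K0 + 8, fun X => ?_⟩
  set s : ℝ := 1 - κ with hs
  have hs1 : 1 / 2 ≤ s := by linarith
  have h2s : (2 : ℝ) ^ (-s) ≤ 3 / 4 := by
    have h1 : (2 : ℝ) ^ (-s) ≤ (2 : ℝ) ^ (-(1 / 2) : ℝ) :=
      Real.rpow_le_rpow_of_exponent_le (by norm_num) (by linarith)
    have h2 : (2 : ℝ) ^ (-(1 / 2) : ℝ) ≤ 3 / 4 := by
      rw [Real.rpow_neg (by norm_num), ← Real.sqrt_eq_rpow, inv_le_comm₀ (by positivity) (by norm_num)]
      rw [Real.le_sqrt (by norm_num) (by norm_num)]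
      norm_num
    linarith
  induction X using Nat.strong_induction_on with
  | _ X ih =>
    rcases Nat.eq_zero_or_pos X with rfl | hX
    · simp only [Ioc_self, filter_empty, card_empty, Nat.cast_zero]
      positivity
    have hXp : (1 : ℝ) ≤ X := by exact_mod_cast hX
    have hXs : 1 ≤ (X : ℝ) ^ s := Real.one_le_rpow hXp (by linarith)
    rcases lt_or_ge X (2 * K0 + 2) with hsm | hbig
    · have h1 : (((Ioc 0 X).filter (fun t => t ∈ P)).card : ℝ) ≤ X := by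
        have h3 := Finset.card_filter_le (Ioc 0 X) (fun t => t ∈ P)
        rw [Nat.card_Ioc, Nat.sub_zero] at h3
        exact_mod_cast h3
      have h2 : (X : ℝ) ≤ 2 * K0 + 8 := by
        have : X ≤ 2 * K0 + 8 := by omega
        exact_mod_cast this
      have h3 : (0 : ℝ) ≤ K0 := Nat.cast_nonneg _
      nlinarith
    · set K := X / 2 with hK
      have hKX : K < X := by omega
      have hK0 : K0 ≤ K := by omega
      have hK1 : 1 ≤ K := by omega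
      have hKp : (1 : ℝ) ≤ K := by exact_mod_cast hK1
      have hsub : (Ioc 0 X).filter (fun t => t ∈ P) ⊆
          ((Ioc 0 K).filter (fun t => t ∈ P) ∪ (Ioc K (2 * K)).filter (fun t => t ∈ P)) ∪ {X} := by
        intro t ht
        rw [mem_filter, mem_Ioc] at ht
        simp only [mem_union, mem_filter, mem_Ioc, mem_singleton]
        by_cases h1 : t ≤ K
        · exact Or.inl (Or.inl ⟨⟨ht.1.1, h1⟩, ht.2⟩)
        · by_cases h2 : t ≤ 2 * K
          · exact Or.inl (Or.inr ⟨⟨by omega, h2⟩, ht.2⟩)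
          · right
            omega
      have h1 : (((Ioc 0 X).filter (fun t => t ∈ P)).card : ℝ) ≤
          ((Ioc 0 K).filter (fun t => t ∈ P)).card + ((Ioc K (2 * K)).filter (fun t => t ∈ P)).card + 1 := by
        have h2 := (card_le_card hsub).trans (card_union_le _ _)
        rw [card_singleton] at h2
        have h3 := card_union_le ((Ioc 0 K).filter (fun t => t ∈ P)) ((Ioc K (2 * K)).filter (fun t => t ∈ P))
        exact_mod_cast h2.trans (Nat.add_le_add_right h3 1)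
      have h2 := ih K hKX
      have h3 := h K hK0
      have h5 : (K : ℝ) ^ s ≤ 3 / 4 * (X : ℝ) ^ s := by
        have h6 : (K : ℝ) ≤ 2⁻¹ * X := by
          have : 2 * K ≤ X := by omega
          have h7 : ((2 * K : ℕ) : ℝ) ≤ X := by exact_mod_cast this
          push_cast at h7
          linarith
        calc (K : ℝ) ^ s ≤ (2⁻¹ * (X : ℝ)) ^ s := Real.rpow_le_rpow (by linarith) h6 (by linarith)
          _ = (2 : ℝ) ^ (-s) * (X : ℝ) ^ s := by
              rw [Real.mul_rpow (by norm_num) (by linarith), Real.inv_rpow (by norm_num), ← Real.rpow_neg (by norm_num)]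
          _ ≤ 3 / 4 * (X : ℝ) ^ s := mul_le_mul_of_nonneg_right h2s (by positivity)
      have h6 : (0 : ℝ) ≤ K0 := Nat.cast_nonneg _
      have h7 : (2 * (K0 : ℝ) + 8) * (K : ℝ) ^ s + (K : ℝ) ^ s ≤ (2 * (K0 : ℝ) + 9) * (3 / 4 * (X : ℝ) ^ s) := by
        have : (2 * (K0 : ℝ) + 8) * (K : ℝ) ^ s + (K : ℝ) ^ s = (2 * (K0 : ℝ) + 9) * (K : ℝ) ^ s := by ring
        rw [this]
        exact mul_le_mul_of_nonneg_left h5 (by positivity)
      nlinarith

open Classical in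
/-- **few bad integers** -/
theorem count {ε : ℝ} (hε : 0 < ε) (hε1 : ε ≤ 1) : ∃ C : ℝ, ∀ Y : ℕ,
    (((Ioc 0 Y).filter (fun m => m ∈ {m : ℕ | ¬ Good ε m})).card : ℝ) ≤ C * (Y : ℝ) ^ (1 - ε / 2) := by
  obtain ⟨n₀, h⟩ := block hε hε1
  have h1 : 0 < ε / 2 := by positivity
  have h2 : ε / 2 ≤ 1 / 2 := by linarith
  obtain ⟨C, hC⟩ := cum_exact {m : ℕ | ¬ Good ε m} h1 h2 n₀ (fun K hK => by convert h K hK)
  exact ⟨C, fun Y => by convert hC Y⟩

/-- **windows around the members of `α v`** -/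
theorem windows {ε : ℝ} (hε : 0 < ε) (hε1 : ε ≤ 1) (v : ℕ → ℝ) (τ θ : ℝ) (hv : ∀ n, 1 ≤ v n) (hτ : 0 ≤ τ)
    (hE : Pool.Agent.Y854.GM.ExpLe v τ) (hθ : θ < 1) :
    ∃ E : Set ℝ, dimH E ≤ ENNReal.ofReal ((1 - ε / 2 + τ) / (1 - θ)) ∧ ∀ α : ℝ, 0 < α → α ∉ E →
      ∃ n₀ : ℕ, ∀ n : ℕ, n₀ ≤ n → ∀ m : ℕ, |(m : ℝ) - α * v n| ≤ (v n) ^ θ → Good ε m := by
  classical
  obtain ⟨C, hC⟩ := count hε hε1
  obtain ⟨E, hEd, hE2⟩ := Pool.Agent.Y854.GM.win_nat {m : ℕ | ¬ Good ε m} hv hτ hE (s := 1 - ε / 2)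
    (by linarith) hθ (fun ζ hζ => ⟨|C|, fun Y hY => by
      have hY1 : (1 : ℝ) ≤ Y := by exact_mod_cast hY
      refine le_trans ?_ ((hC Y).trans ?_)
      · apply le_of_eq
        congr
      apply mul_le_mul (le_abs_self C) _ (by positivity) (abs_nonneg _)
      exact Real.rpow_le_rpow_of_exponent_le hY1 (by linarith)⟩)
  refine ⟨E, hEd, fun α hα hαE => ?_⟩
  obtain ⟨n₀, hn⟩ := hE2 α hα hαE
  refine ⟨n₀, fun n hn1 m hm => ?_⟩
  have h3 := (hn n hn1 m hm).2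
  by_contra hcon
  exact h3 hcon

open Classical in
/-- **the integers `⌊α n ^ κ⌋`** -/
theorem pow {κ : ℝ} (hκ : 1 < κ) : ∃ E : Set ℝ, dimH E < 1 ∧ ∀ α : ℝ, 0 < α → α ∉ E → ∀ ε : ℚ, 0 < ε → ε ≤ 1 →
    ∃ δ : ℝ, 0 < δ ∧ δ < 1 ∧ ∃ N₀ : ℕ, ∀ M : ℕ, N₀ ≤ M →
      (((Icc 1 M).filter (fun n : ℕ => ¬ Good (ε : ℝ) ⌊α * (n : ℝ) ^ κ⌋₊)).card : ℝ) ≤ (M : ℝ) ^ (1 - δ) := by
  obtain ⟨E, hE, h⟩ := Pool.Agent.Y854.GM.sets_pow κ hκ (fun e : ℚ => {m : ℕ | ¬ Good (e : ℝ) m})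
  refine ⟨E, hE, fun α hα hαE ε hε hε1 => ?_⟩
  have he0 : (0 : ℝ) < (ε : ℝ) := by exact_mod_cast hε
  have he1 : (ε : ℝ) ≤ 1 := by exact_mod_cast hε1
  obtain ⟨C, hC⟩ := count he0 he1
  obtain ⟨δ, hδ, hδ1, N₀, hN⟩ := h α hα hαE ε ((ε : ℝ) / 2) C (by positivity) ⟨1, fun Y _ => by
    convert hC Y⟩
  refine ⟨δ, hδ, hδ1, N₀, fun M hM => le_trans (le_of_eq ?_) (hN M hM)⟩
  congr

end Pool.Agent.Q34.DN
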